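import Mathlib
import Pool.Agent.H86.CMLib.W522.U.C9

/-!
# A conjugation stable space of operators with a common eigenvector acts by scalars
-/

set_option linter.unusedSectionVars false

namespace Pool.Agent.TH118.CR

open Module Pool.Agent.H204R3.SP Pool.Agent.H204R3.GP Pool.Agent.W522.U

variable {K : Type} [Field K] [CharZero K] {X : Type} [AddCommGroup X] [Module K X]
  [FiniteDimensional K X] {Γ : Type} [Group Γ] {R : Representation K Γ X}

/-- A subgroup is of finite index if its cosets are separated by a map to a finite set. -/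
theorem fi_of_map {G : Type} [Group G] (H : Subgroup G) {T : Type} [Finite T] (f : G → T)
    (h : ∀ g g', f g = f g' → g⁻¹ * g' ∈ H) : H.FiniteIndex := by
  have h1 : Finite (G ⧸ H) := by
    have h2 : Finite (Set.range f) := inferInstance
    refine Finite.of_surjective (fun t : Set.range f => (QuotientGroup.mk t.2.choose : G ⧸ H)) ?_
    intro q
    obtain ⟨g, rfl⟩ := QuotientGroup.mk_surjective q
    have h3 : f g ∈ Set.range f := ⟨g, rfl⟩
    refine ⟨⟨f g, h3⟩, ?_⟩
    change (QuotientGroup.mk h3.choose : G ⧸ H) = QuotientGroup.mk g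
    rw [QuotientGroup.eq]
    exact h _ _ h3.choose_spec
  exact Subgroup.finiteIndex_of_finite_quotient

/-- Among the vectors `R g d` finitely many give all common eigenvalues. -/
theorem finite_weights (L : Submodule K (End K X)) {d : X} (hd0 : d ≠ 0)
    (heig : ∀ g : Γ, ∀ Y ∈ L, ∃ a : K, Y (R g d) = a • R g d) :
    ∃ (T : Type) (_ : Finite T) (f : Γ → T), ∀ g g', f g = f g' → ∀ Y ∈ L, ∀ a : K,
      Y (R g d) = a • R g d → Y (R g' d) = a • R g' d := by
  classical
  let S : Set X := Set.range (fun g : Γ => R g d)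
  obtain ⟨b, hbS, hspan, hli⟩ := exists_linearIndependent K S
  have hfin : Finite b := hli.finite
  have := Fintype.ofFinite b
  have key : ∀ g : Γ, ∃ x : b, ∀ Y ∈ L, ∀ a : K, Y (x : X) = a • (x : X) ↔ Y (R g d) = a • R g d := by
    intro g
    have h1 : R g d ∈ Submodule.span K (Set.range (Subtype.val : b → X)) := by
      rw [Subtype.range_coe, hspan]
      exact Submodule.subset_span ⟨g, rfl⟩
    obtain ⟨c, hc⟩ := (Submodule.mem_span_range_iff_exists_fun K).1 h1
    obtain ⟨x, hx⟩ : ∃ x, c x ≠ 0 := by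
      by_contra hcon
      push Not at hcon
      have h2 : R g d = 0 := by
        rw [← hc]
        exact Finset.sum_eq_zero fun x _ => by rw [hcon x, zero_smul]
      exact Rne g hd0 h2
    refine ⟨x, fun Y hY a => ?_⟩
    have hx1 : ∀ y : b, ∃ a : K, Y (y : X) = a • (y : X) := by
      intro y
      obtain ⟨g', hg'⟩ := hbS y.2
      obtain ⟨a', ha'⟩ := heig g' Y hY
      have h3 : (fun g : Γ => R g d) g' = R g' d := rfl
      rw [h3] at hg'
      rw [hg'] at ha'
      exact ⟨a', ha'⟩
    choose al hal using hx1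
    obtain ⟨e, he⟩ := heig g Y hY
    have h3 : ∑ y, (c y * (al y - e)) • (y : X) = 0 := by
      have h4 : Y (R g d) = ∑ y, (c y * al y) • (y : X) := by
        rw [← hc, map_sum]
        refine Finset.sum_congr rfl fun y _ => ?_
        rw [map_smul, hal, smul_smul]
      have h5 : e • R g d = ∑ y, (c y * e) • (y : X) := by
        rw [← hc, Finset.smul_sum]
        refine Finset.sum_congr rfl fun y _ => ?_
        rw [smul_smul, mul_comm]
      have h6 : ∑ y, (c y * (al y - e)) • (y : X) =
          ∑ y, (c y * al y) • (y : X) - ∑ y, (c y * e) • (y : X) := by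
        rw [← Finset.sum_sub_distrib]
        refine Finset.sum_congr rfl fun y _ => ?_
        rw [← sub_smul]
        congr 1
        ring
      rw [h6, ← h4, ← h5, he, sub_self]
    have h4 := Fintype.linearIndependent_iff.1 hli _ h3 x
    have h5 : al x = e := sub_eq_zero.1 ((mul_eq_zero.1 h4).resolve_left hx)
    have hx0 : (x : X) ≠ 0 := hli.ne_zero x
    constructor
    · intro h
      have h6 : al x = a := by
        have h7 : (al x - a) • (x : X) = 0 := by rw [sub_smul, ← hal, h, sub_self]
        exact sub_eq_zero.1 ((smul_eq_zero.1 h7).resolve_right hx0)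
      rw [he, ← h5, h6]
    · intro h
      have h6 : e = a := by
        have h7 : (e - a) • R g d = 0 := by rw [sub_smul, ← he, h, sub_self]
        exact sub_eq_zero.1 ((smul_eq_zero.1 h7).resolve_right (Rne g hd0))
      rw [hal, h5, h6]
  choose f hf using key
  refine ⟨b, hfin, f, fun g g' hgg' Y hY a ha => ?_⟩
  rw [← hf g' Y hY a, ← hgg', hf g Y hY a]
  exact ha

/-- A conjugation stable space of operators with a common eigenvector acts by scalars on a
strongly irreducible subspace. -/
theorem scalar_of_vector {U : Submodule K X} (hU : SI R U) (L : Submodule K (End K X))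
    (hconj : ∀ g : Γ, ∀ Y ∈ L, R g * Y * R g⁻¹ ∈ L)
    {d : X} (hd : d ∈ U) (hd0 : d ≠ 0) (heig : ∀ Y ∈ L, ∃ a : K, Y d = a • d) :
    ∀ Y ∈ L, ∃ a : K, ∀ u ∈ U, Y u = a • u := by
  classical
  have hconj' : ∀ g : Γ, ∀ Y ∈ L, R g⁻¹ * Y * R g ∈ L := by
    intro g Y hY
    have h1 := hconj g⁻¹ Y hY
    rwa [inv_inv] at h1
  have hev : ∀ (g : Γ) (Y : End K X) (v : X), Y (R g v) = R g ((R g⁻¹ * Y * R g) v) := by
    intro g Y v
    rw [Module.End.mul_apply, Module.End.mul_apply, Rinv']
  have hall : ∀ g : Γ, ∀ Y ∈ L, ∃ a : K, Y (R g d) = a • R g d := by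
    intro g Y hY
    obtain ⟨a, ha⟩ := heig _ (hconj' g Y hY)
    exact ⟨a, by rw [hev, ha, map_smul]⟩
  obtain ⟨T, hT, f, hf⟩ := finite_weights L hd0 hall
  choose! lam hlam using heig
  have huniq : ∀ (g : Γ) (a a' : K), a • R g d = a' • R g d → a = a' := by
    intro g a a' h
    have h7 : (a - a') • R g d = 0 := by rw [sub_smul, h, sub_self]
    exact sub_eq_zero.1 ((smul_eq_zero.1 h7).resolve_right (Rne g hd0))
  have hlamc : ∀ g : Γ, (∀ Y ∈ L, Y (R g d) = lam Y • R g d) → ∀ Y ∈ L,
      lam (R g⁻¹ * Y * R g) = lam Y := by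
    intro g hg Y hY
    have h1 := hg Y hY
    rw [hev, hlam _ (hconj' g Y hY), map_smul] at h1
    exact huniq g _ _ h1
  let H : Subgroup Γ :=
    { carrier := {g | ∀ Y ∈ L, Y (R g d) = lam Y • R g d}
      one_mem' := by
        intro Y hY
        rw [map_one, Module.End.one_apply]
        exact hlam Y hY
      mul_mem' := by
        intro g h hg hh Y hY
        rw [map_mul, Module.End.mul_apply, hev, hh _ (hconj' g Y hY), hlamc g hg Y hY, map_smul]
      inv_mem' := by
        intro g hg Y hY
        have h1 : R g * Y * R g⁻¹ ∈ L := hconj g Y hY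
        have h2 := hg _ h1
        have h3 : (R g * Y * R g⁻¹) (R g d) = R g (Y d) := by
          rw [Module.End.mul_apply, Module.End.mul_apply, Rinv]
        rw [h3, hlam Y hY, map_smul] at h2
        have h4 : lam Y = lam (R g * Y * R g⁻¹) := huniq g _ _ h2
        rw [hev, inv_inv, hlam _ h1, map_smul, h4] }
  have hH : H.FiniteIndex := by
    refine fi_of_map H f fun g g' hgg' Y hY => ?_
    have h1 : R g * Y * R g⁻¹ ∈ L := hconj g Y hY
    have h2 : (R g * Y * R g⁻¹) (R g d) = lam Y • R g d := by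
      rw [Module.End.mul_apply, Module.End.mul_apply, Rinv, hlam Y hY, map_smul]
    have h3 := hf g g' hgg' _ h1 _ h2
    rw [map_mul, Module.End.mul_apply, hev, inv_inv, h3, map_smul]
  obtain ⟨D, hD, hDU⟩ := hU.2.1
  let W : Submodule K X :=
    { carrier := {u | u ∈ U ∧ ∀ Y ∈ L, Y u = lam Y • u}
      zero_mem' := ⟨U.zero_mem, fun Y _ => by rw [map_zero, smul_zero]⟩
      add_mem' := fun {u v} hu hv => ⟨U.add_mem hu.1 hv.1, fun Y hY => by
        rw [map_add, hu.2 Y hY, hv.2 Y hY, smul_add]⟩
      smul_mem' := fun c u hu => ⟨U.smul_mem c hu.1, fun Y hY => by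
        rw [map_smul, hu.2 Y hY, smul_comm]⟩ }
  have hW : Pot R W := by
    refine ⟨D ⊓ H, inferInstance, fun g hg u hu => ⟨hDU g hg.1 u hu.1, fun Y hY => ?_⟩⟩
    rw [hev, hu.2 _ (hconj' g Y hY), hlamc g hg.2 Y hY, map_smul]
  rcases hU.2.2 W (fun u hu => hu.1) hW with h | h
  · exfalso
    have h1 : d ∈ W := ⟨hd, hlam⟩
    rw [h, Submodule.mem_bot] at h1
    exact hd0 h1
  · intro Y hY
    refine ⟨lam Y, fun u hu => ?_⟩
    rw [← h] at hu
    exact hu.2 Y hY

end Pool.Agent.TH118.CR
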