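import Mathlib
import Pool.Agent.H86.CMLib.TH118.WC.X

/-!
# The sum of the representatives: nilpotent elements of rank one in the Lie algebra
-/

set_option linter.unusedSectionVars false

namespace Pool.Agent.TH118.CR

open Module Pool.Agent.H204R3.SP Pool.Agent.H204R3.GP Pool.Agent.W522.U Pool.Agent.W529.Ta
open Pool.Agent.W528.Odd Pool.Agent.TH118.WC

noncomputable section

variable {K : Type} [Field K] [CharZero K] {X : Type} [AddCommGroup X] [Module K X]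
  [FiniteDimensional K X]
  {Γ : Type} [Group Γ]

variable {R : Representation K Γ X} {χ : Γ →* K}

theorem alt_of_nil {U : Submodule K X} {Δ : Subgroup Γ} (hU : SI R U) (hΔ : Δ.FiniteIndex)
    (B : X →ₗ[K] X →ₗ[K] K)
    (hB : ∀ g ∈ Δ, ∀ u ∈ U, ∀ v ∈ U, B (R g u) (R g v) = χ g * B u v)
    (N : End K X) (hNU : ∀ u ∈ U, N u ∈ U)
    (hsk : ∀ u ∈ U, ∀ v ∈ U, B (N u) v + B u (N v) = 0)
    (hr : finrank K (U.map N) = 1) : ∀ u ∈ U, B u u = 0 := by
  by_contra hcon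
  push Not at hcon
  obtain ⟨w, hw, hw0⟩ := hcon
  let B' := B + B.flip
  have hB' : ∀ u v, B' u v = B u v + B v u := fun _ _ => rfl
  have h0 : ∃ u ∈ U, ∃ v ∈ U, B' u v ≠ 0 := by
    refine ⟨w, hw, w, hw, ?_⟩
    rw [hB', ← two_mul]
    exact mul_ne_zero two_ne_zero hw0
  have hinv : ∀ g ∈ Δ, ∀ u ∈ U, ∀ v ∈ U, B' (R g u) (R g v) = χ g * B' u v := by
    intro g hg u hu v hv
    rw [hB', hB', hB g hg u hu v hv, hB g hg v hv u hu, mul_add]
  have hnd := du_left hU hU.2.1 hΔ h0 hinv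
  have hsk' : ∀ u ∈ U, ∀ v ∈ U, B' (N u) v + B' u (N v) = 0 := by
    intro u hu v hv
    rw [hB', hB']
    linear_combination hsk u hu v hv + hsk v hv u hu
  obtain ⟨⟨v, hv⟩, hv0, hspan⟩ := finrank_eq_one_iff'.1 hr
  have hv0' : v ≠ 0 := fun h => hv0 (Subtype.ext h)
  obtain ⟨x, hx, hxv⟩ := id hv
  have hvU : v ∈ U := by
    rw [← hxv]
    exact hNU x hx
  have hxv' : N x = v := hxv
  have h3 := hsk' x hx x hx
  rw [hxv', hB', hB'] at h3
  have h4 : B' v x = 0 := by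
    rw [hB']
    have h5 : 2 * (B v x + B x v) = 0 := by linear_combination h3
    exact (mul_eq_zero.1 h5).resolve_left two_ne_zero
  apply hv0'
  refine hnd v hvU fun y hy => ?_
  have h5 := hsk' x hx y hy
  obtain ⟨c, hc⟩ := hspan ⟨N y, Submodule.mem_map_of_mem hy⟩
  have h6 : c • v = N y := congrArg Subtype.val hc
  rw [hxv', ← h6, map_smul, smul_eq_mul] at h5
  have h7 : B' x v = 0 := by
    rw [hB', add_comm, ← hB']
    exact h4
  rw [h7, mul_zero, add_zero] at h5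
  exact h5

/-- Elements of the Lie algebra preserve the strongly irreducible subspaces. -/
theorem lieT_stable (ω : X →ₗ[K] X →ₗ[K] K) (hnd : ∀ u, (∀ v, ω u v = 0) → u = 0)
    (hωR : ∀ g u v, ω (R g u) (R g v) = χ g * ω u v) (hss : HasProj R) {U : Submodule K X}
    (hU : Pot R U) {N : End K X} (hN : N ∈ lieT R χ) : ∀ u ∈ U, N u ∈ U := by
  obtain ⟨Δ, hΔ, hst⟩ := hU
  obtain ⟨p, hp1, hp2, hp3⟩ := hss Δ hΔ U hst
  intro u hu
  have h1 := Pool.Agent.W839.OT.HTFam.comm R χ ω hnd hωR Δ hΔ p hp3 N hN u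
  rw [hp2 u hu] at h1
  rw [h1]
  exact hp1 _

/-- Elements of the Lie algebra are skew for the pairings of a strongly irreducible subspace. -/
theorem lieT_skew (ω : X →ₗ[K] X →ₗ[K] K) (hnd : ∀ u, (∀ v, ω u v = 0) → u = 0)
    (hωR : ∀ g u v, ω (R g u) (R g v) = χ g * ω u v) (hss : HasProj R) {U : Submodule K X}
    (hU : Pot R U) {Δ : Subgroup Γ} (hΔ : Δ.FiniteIndex) (B : X →ₗ[K] X →ₗ[K] K)
    (hB : ∀ g ∈ Δ, ∀ u ∈ U, ∀ v ∈ U, B (R g u) (R g v) = χ g * B u v)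
    {N : End K X} (hN : N ∈ lieT R χ) : ∀ u ∈ U, ∀ v ∈ U, B (N u) v + B u (N v) = 0 := by
  have hNU := lieT_stable ω hnd hωR hss hU hN
  obtain ⟨Δ', hΔ', hst⟩ := hU
  obtain ⟨p, hp1, hp2, hp3⟩ := hss (Δ ⊓ Δ') inferInstance U (fun g hg => hst g hg.2)
  have hT : IsTate2 R χ (B.compl₁₂ p p) := by
    refine ⟨Δ ⊓ Δ', inferInstance, fun g hg u v => ?_⟩
    rw [LinearMap.compl₁₂_apply, LinearMap.compl₁₂_apply, hp3 g hg, hp3 g hg]
    exact hB g hg.1 _ (hp1 u) _ (hp1 v)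
  intro u hu v hv
  have h1 := lieT_bil R χ hT hN u v
  rw [LinearMap.compl₁₂_apply, LinearMap.compl₁₂_apply, hp2 u hu, hp2 v hv,
    hp2 _ (hNU u hu), hp2 _ (hNU v hv)] at h1
  exact h1

variable (ω : X →ₗ[K] X →ₗ[K] K) (hnd : ∀ u, (∀ v, ω u v = 0) → u = 0)
  (hωR : ∀ g u v, ω (R g u) (R g v) = χ g * ω u v)
  (hN1 : ∀ U, SI R U → 2 ≤ finrank K U → ∃ N ∈ lieT R χ, N * N = 0 ∧ finrank K (U.map N) = 1)
  (hss : HasProj R)
  (hR2 : ∀ U, SI R U → finrank K U = 1 → ¬Du R χ U U)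
  (hH : ∀ U U', SI R U → SI R U' → 2 ≤ finrank K U → ¬Du R χ U U → ∀ ψ : Γ → K, Tw R ψ U U' →
    Tw R (fun _ => 1) U U')

include hnd hωR hN1 hR2 hH hss in
theorem nil_reps [IsAlgClosed K] {s : ℕ} (W : Fin s → Submodule K X) (hW : ∀ i, SI R (W i))
    (hWW : ∀ i j, Tw R (fun _ => 1) (W i) (W j) → i = j)
    (st : Fin s → Fin s) (hst : ∀ i, st (st i) = i) (hDu : ∀ i, Du R χ (W i) (W (st i)))
    (hDu' : ∀ i j, Du R χ (W i) (W j) → j = st i) :
    ∃ (Δ : Subgroup Γ) (_ : Δ.FiniteIndex) (hWΔ : ∀ i, ∀ g ∈ Δ, ∀ u ∈ W i, R g u ∈ W i),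
      ∀ (m : ℕ) (φ : MultilinearMap K (fun _ : Fin m × Fin 2 => ∀ i, W i) K),
        IsTate (piRep (fun i => resR R Δ (W i) (hWΔ i))) (χ.comp Δ.subtype) m φ →
        φ ∈ Submodule.span K (PiDet (fun i => resR R Δ (W i) (hWΔ i))
          (χ.comp Δ.subtype) st m) := by
  classical
  choose D hDfi hDs using fun i => (hW i).2.1
  have hpos : ∀ i, 0 < finrank K (W i) := by
    intro i
    rw [Nat.pos_iff_ne_zero, ne_eq, Submodule.finrank_eq_zero]
    exact (hW i).1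
  have hDuA : ∀ i, ∃ D' : Subgroup Γ, D'.FiniteIndex ∧ ∃ B : X →ₗ[K] X →ₗ[K] K,
      (∃ u ∈ W i, ∃ v ∈ W (st i), B u v ≠ 0) ∧
      (∀ g ∈ D', ∀ u ∈ W i, ∀ v ∈ W (st i), B (R g u) (R g v) = χ g * B u v) ∧
      (st i = i → ∀ u ∈ W i, B u u = 0) := by
    intro i
    obtain ⟨D', hD', B, hB0, hB⟩ := hDu i
    by_cases hi : st i = i
    · rcases (show finrank K (W i) = 1 ∨ 2 ≤ finrank K (W i) by have := hpos i; omega)
        with h1 | h1
      · rw [hi] at hB hB0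
        exact absurd ⟨D', hD', B, hB0, hB⟩ (hR2 _ (hW i) h1)
      · obtain ⟨N, hN, -, hr⟩ := hN1 _ (hW i) h1
        refine ⟨D', hD', B, hB0, hB, fun _ => ?_⟩
        rw [hi] at hB hB0
        exact alt_of_nil (hW i) hD' B hB N (lieT_stable ω hnd hωR hss (hW i).2.1 hN)
          (lieT_skew ω hnd hωR hss (hW i).2.1 hD' B hB hN) hr
    · exact ⟨D', hD', B, hB0, hB, fun h => absurd h hi⟩
  choose D' hD' B hB0 hB hBA using hDuA
  let Δ : Subgroup Γ := ⨅ i, D i ⊓ D' i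
  have hΔ : Δ.FiniteIndex := Subgroup.finiteIndex_iInf (fun i => inferInstance)
  have hm : ∀ g ∈ Δ, ∀ i, g ∈ D i ∧ g ∈ D' i := fun g hg i => Subgroup.mem_iInf.1 hg i
  have hWΔ : ∀ i, ∀ g ∈ Δ, ∀ u ∈ W i, R g u ∈ W i := fun i g hg u hu => hDs i g (hm g hg i).1 u hu
  have hBalt : ∀ i, st i = i → ∀ u ∈ W i, B i u u = 0 := hBA
  have hBl : ∀ i j, j = st i → ∀ u ∈ W i, (∀ v ∈ W j, B i u v = 0) → u = 0 := by
    rintro i _ rfl
    exact du_left (hW i) (hW _).2.1 (hD' i) (hB0 i) (hB i)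
  have hBr : ∀ i j, j = st i → ∀ v ∈ W j, (∀ u ∈ W i, B i u v = 0) → v = 0 := by
    rintro i _ rfl
    exact du_right (hW i).2.1 (hW _) (hD' i) (hB0 i) (hB i)
  have hBs : ∀ i j, j = st i → ∀ g ∈ Δ, ∀ u ∈ W i, ∀ v ∈ W j,
      B i (R g u) (R g v) = χ g * B i u v := by
    rintro i _ rfl g hg
    exact hB i g (hm g hg i).2
  let r : ∀ i, Representation K Δ (W i) := fun i => resR R Δ (W i) (hWΔ i)
  have hr : ∀ (i : Fin s) (g : Δ) (u : W i), ((r i g u : W i) : X) = R g.1 u := fun _ _ _ => rfl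
  -- the conditions
  have hsim : ∀ (g : Δ) u v, pf W st B (piRep r g u) (piRep r g v) =
      (χ.comp Δ.subtype) g * pf W st B u v := by
    intro g u v
    rw [pf_apply, pf_apply, Finset.mul_sum]
    refine Finset.sum_congr rfl fun i _ => ?_
    rw [Finset.mul_sum]
    refine Finset.sum_congr rfl fun j _ => ?_
    rw [piRep_apply, piRep_apply, hr, hr]
    change _ = χ g.1 * _
    unfold cf
    by_cases h : j = st i
    · rw [if_pos h]
      rcases lt_trichotomy i j with h1 | h1 | h1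
      · rw [if_pos h1]
        exact hBs i j h g.1 g.2 _ (u i).2 _ (v j).2
      · rw [if_neg (not_lt.2 h1.ge), if_neg (not_lt.2 h1.le)]
        exact hBs i j h g.1 g.2 _ (u i).2 _ (v j).2
      · rw [if_neg (not_lt.2 h1.le), if_pos h1, LinearMap.neg_apply, LinearMap.neg_apply,
          LinearMap.neg_apply, LinearMap.neg_apply, LinearMap.flip_apply, LinearMap.flip_apply,
          hBs j i (by rw [h, hst]) g.1 g.2 _ (v j).2 _ (u i).2, mul_neg]
    · rw [if_neg h, LinearMap.zero_apply, LinearMap.zero_apply, LinearMap.zero_apply,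
        LinearMap.zero_apply, mul_zero]
  have hor : ∀ i j, j ≠ st i → ∀ (u : W i) (v : W j),
      pf W st B (Pi.single i u) (Pi.single j v) = 0 := by
    intro i j hij u v
    rw [pf_single]
    unfold cf
    rw [if_neg hij, LinearMap.zero_apply, LinearMap.zero_apply]
  have htw : ∀ i j, i ≠ j → 2 ≤ finrank K (W i) → 2 ≤ finrank K (W j) →
      ∀ (T : W i →ₗ[K] W j) (ψ : Δ → K), (∀ g u, T (r i g u) = ψ g • r j g (T u)) → T = 0 := by
    intro i j hij hi hj T ψ hT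
    by_contra hT0
    obtain ⟨p, hp⟩ := exists_pr (W i)
    let ψ' : Γ → K := fun g => if h : g ∈ Δ then ψ ⟨g, h⟩ else 1
    have htw : Tw R ψ' (W i) (W j) := by
      refine ⟨Δ, hΔ, (W j).subtype.comp (T.comp p), fun u _ => SetLike.coe_mem _, ?_, ?_⟩
      · by_contra hcon
        push Not at hcon
        apply hT0
        ext u
        have h1 := hcon u u.2
        rw [LinearMap.comp_apply, LinearMap.comp_apply, hp] at h1
        exact h1
      · intro g hg u hu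
        have h1 := hT ⟨g, hg⟩ ⟨u, hu⟩
        have h2 : p (R g u) = r i ⟨g, hg⟩ ⟨u, hu⟩ := hp (r i ⟨g, hg⟩ ⟨u, hu⟩)
        have h3 : p u = ⟨u, hu⟩ := hp ⟨u, hu⟩
        have h4 : ψ' g = ψ ⟨g, hg⟩ := dif_pos hg
        rw [LinearMap.comp_apply, LinearMap.comp_apply, LinearMap.comp_apply,
          LinearMap.comp_apply, h2, h3, h1, h4]
        rfl
    have h1 : Tw R (fun _ => 1) (W i) (W j) := by
      by_cases h2 : Du R χ (W i) (W i)
      · by_cases h3 : Du R χ (W j) (W j)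
        · exact sp_twist (hW i) (hW j) h2 h3 htw
        · have h4 := hH _ _ (hW j) (hW i) hj h3 _ (htw.symm (hW i) (hW j))
          exact h4.symm1 (hW j) (hW i)
      · exact hH _ _ (hW i) (hW j) hi h2 _ htw
    exact hij (hWW _ _ h1)
  have hirr : ∀ i, Irr (r i) := by
    intro i Δ' hΔ' U hU
    have h1 : Pot R (U.map (W i).subtype) := by
      refine ⟨Δ'.map Δ.subtype, fi_map hΔ Δ' hΔ', ?_⟩
      rintro _ ⟨g, hg, rfl⟩ _ ⟨u, hu, rfl⟩
      exact ⟨r i g u, hU g hg u hu, rfl⟩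
    rcases (hW i).2.2 _ (Submodule.map_subtype_le _ _) h1 with h2 | h2
    · left
      rw [eq_bot_iff]
      intro u hu
      have h3 : (u : X) ∈ U.map (W i).subtype := ⟨u, hu, rfl⟩
      rw [h2, Submodule.mem_bot] at h3
      rw [Submodule.mem_bot]
      exact Subtype.ext h3
    · right
      rw [eq_top_iff]
      intro u _
      have h3 : (u : X) ∈ U.map (W i).subtype := by
        rw [h2]
        exact u.2
      obtain ⟨u', hu', huu⟩ := h3
      have h4 : u' = u := Subtype.ext huu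
      rw [← h4]
      exact hu'
  have hnil : ∀ i, 2 ≤ finrank K (W i) → ∃ N ∈ lieT (piRep r) (χ.comp Δ.subtype), N * N = 0 ∧
      ∃ (u : W i) (φ : Dual K (W i)), u ≠ 0 ∧ φ ≠ 0 ∧ ∀ x, N (Pi.single i x) i = φ x • u := by
    intro i hi
    obtain ⟨N, hN, h2, hrk⟩ := hN1 _ (hW i) hi
    have hfam := Pool.Agent.W839.OT.HTFam.main K X Γ R χ ω hnd hωR hss s W hW hWW Δ hΔ hWΔ
    obtain ⟨Y, hY, hYx⟩ := hfam N hN
    refine ⟨blk Y, hY, ?_, ?_⟩
    · refine LinearMap.ext fun y => ?_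
      funext j
      apply Subtype.ext
      rw [Module.End.mul_apply, blk_apply, blk_apply, hYx, hYx, ← Module.End.mul_apply, h2]
      rfl
    · have hst := lieT_stable ω hnd hωR hss (hW i).2.1 hN
      obtain ⟨⟨v, hv⟩, hv0, hspan⟩ := finrank_eq_one_iff'.1 hrk
      obtain ⟨x, hx, hxv⟩ := id hv
      have hvW : v ∈ W i := by
        rw [← hxv]
        exact hst x hx
      have hv0' : (⟨v, hvW⟩ : W i) ≠ 0 := by
        intro h
        apply hv0
        have h3 : v = 0 := congrArg (fun w : W i => (w : X)) h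
        exact Subtype.ext h3
      obtain ⟨f, hf⟩ : ∃ f : Dual K (W i), f ⟨v, hvW⟩ = 1 := by
        obtain ⟨f, hf⟩ : ∃ f : Dual K (W i), f ⟨v, hvW⟩ ≠ 0 := by
          by_contra h
          push Not at h
          exact hv0' ((Module.forall_dual_apply_eq_zero_iff K _).1 h)
        exact ⟨(f ⟨v, hvW⟩)⁻¹ • f, by
          rw [LinearMap.smul_apply, smul_eq_mul, inv_mul_cancel₀ hf]⟩
      have hN' : ∀ y : W i, N (y : X) = f ⟨N y, hst y y.2⟩ • v := by
        intro y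
        obtain ⟨c, hc⟩ := hspan ⟨N y, Submodule.mem_map_of_mem y.2⟩
        have h6 : c • v = N (y : X) := congrArg Subtype.val hc
        have h7 : (⟨N y, hst y y.2⟩ : W i) = c • ⟨v, hvW⟩ := Subtype.ext h6.symm
        rw [h7, map_smul, hf, smul_eq_mul, mul_one, h6]
      refine ⟨⟨v, hvW⟩, f.comp (N.restrict hst), hv0', ?_, ?_⟩
      · intro h
        have h1 := congrArg (fun φ : Dual K (W i) => φ ⟨x, hx⟩) h
        have h3 : N.restrict hst ⟨x, hx⟩ = ⟨v, hvW⟩ := Subtype.ext hxv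
        rw [LinearMap.comp_apply, h3, hf, LinearMap.zero_apply] at h1
        exact one_ne_zero h1
      · intro y
        apply Subtype.ext
        rw [blk_single, Pi.single_eq_same, hYx, LinearMap.comp_apply, Submodule.coe_smul]
        exact hN' y
  refine ⟨Δ, hΔ, hWΔ, fun m φ hφ => ?_⟩
  exact main_pi_det (pf W st B) (pf_alt W st B hst hBalt) (pf_nondeg W st B hst hBl hBr) hsim
    hst hor htw hirr hnil hpos φ hφ

include hnd hωR hN1 hR2 hH hss in
/-- The theorem over an algebraically closed field. -/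
theorem nil_det [IsAlgClosed K] {m : ℕ}
    (φ : MultilinearMap K (fun _ : Fin m × Fin 2 => X) K) (hφ : IsTate R χ m φ) :
    φ ∈ Submodule.span K (DetProd R χ m) := by
  obtain ⟨s, W, hW, hWW, hall⟩ := exists_reps hss
  obtain ⟨st, hst, hDu, hDu'⟩ := exists_st hss ω hnd hωR W hW hWW hall
  obtain ⟨Δ, hΔ, hWΔ, hE⟩ := nil_reps ω hnd hωR hN1 hss hR2 hH W hW hWW st hst hDu hDu'
  exact det_of_reps hss W hW hall st hDu' Δ hΔ hWΔ m (hE m) φ hφ

end

end Pool.Agent.TH118.CR
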