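import Mathlib
import Pool.Agent.H86.CMLib.W522.U.C9

/-!
# Diagonal elements of the Lie algebra from one diagonalizable element of the group
-/

set_option linter.unusedSectionVars false

namespace Pool.Agent.TH118.CR

open Module Pool.Agent.H204R3.SP Pool.Agent.H204R3.GP Pool.Agent.W522.U

/-- An additive functional on the multiplicative group that does not vanish on an element of
infinite order. -/
theorem exists_add {K : Type} [Field K] [CharZero K] (x : Kˣ) (hx : ∀ k : ℕ, 0 < k → x ^ k ≠ 1) :
    ∃ a : Additive Kˣ →+ K, a (Additive.ofMul x) ≠ 0 := by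
  have hB : Module.Baer ℤ K := Module.Baer.of_divisible K
  let f : ℤ →ₗ[ℤ] Additive Kˣ := LinearMap.toSpanSingleton ℤ (Additive Kˣ) (Additive.ofMul x)
  have hf : Function.Injective f := by
    rw [injective_iff_map_eq_zero]
    intro n hn
    have h1 : x ^ n = 1 := by
      have h2 : f n = Additive.ofMul (x ^ n) := by
        rw [ofMul_zpow]
        rfl
      rw [h2] at hn
      exact hn
    by_contra h0
    have h3 : x ^ n.natAbs = 1 := by
      rcases Int.natAbs_eq n with h | h
      · rw [h, zpow_natCast] at h1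
        exact h1
      · rw [h, zpow_neg, zpow_natCast, inv_eq_one] at h1
        exact h1
    exact hx _ (Int.natAbs_pos.2 h0) h3
  obtain ⟨h, hh⟩ := Module.Baer.extension_property hB f hf (LinearMap.toSpanSingleton ℤ K (1 : K))
  refine ⟨h.toAddMonoidHom, ?_⟩
  have h1 := congrArg (fun F : ℤ →ₗ[ℤ] K => F 1) hh
  have h2 : f 1 = Additive.ofMul x := one_smul _ _
  simp only [LinearMap.comp_apply, h2, LinearMap.toSpanSingleton_apply, one_smul] at h1
  change h (Additive.ofMul x) ≠ 0
  rw [h1]
  exact one_ne_zero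

variable {K : Type} [Field K] [CharZero K] {X : Type} [AddCommGroup X] [Module K X]
  [FiniteDimensional K X] {Γ : Type} [Group Γ] (R : Representation K Γ X) (χ : Γ →* K)

/-- The diagonal operator. -/
noncomputable def dg {ι : Type} (b : Basis ι K X) (t : ι → K) : End K X :=
  b.constr K (fun k => t k • b k)

theorem dg_basis {ι : Type} (b : Basis ι K X) (t : ι → K) (k : ι) : dg b t (b k) = t k • b k := by
  rw [dg, Basis.constr_basis]

theorem dg_mem {ι : Type} [Fintype ι] [DecidableEq ι] (F : Γ) (b : Basis ι K X) (lam : ι → Kˣ)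
    (hF : ∀ k, R F (b k) = (lam k : K) • b k) (c : Kˣ) (hc : (c : K) = χ F)
    (a : Additive Kˣ →+ K) :
    dg b (fun k => a (Additive.ofMul (lam k)) - a (Additive.ofMul c) / 2) ∈ lieT R χ := by
  intro m φ hφ
  obtain ⟨Δ, hΔ, hφ⟩ := hφ
  obtain ⟨M, hM0, hM⟩ := exists_pow_mem Δ hΔ F
  refine kills_of_basis b _ _ fun I => ?_
  have h1 : ∀ l : Fin m × Fin 2, φ (Function.update (fun l => b (I l)) l
      (dg b (fun k => a (Additive.ofMul (lam k)) - a (Additive.ofMul c) / 2) (b (I l)))) =
      (a (Additive.ofMul (lam (I l))) - a (Additive.ofMul c) / 2) * φ (fun l => b (I l)) := by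
    intro l
    rw [dg_basis, MultilinearMap.map_update_smul, smul_eq_mul, Function.update_eq_self]
  rw [Finset.sum_congr rfl fun l _ => h1 l, ← Finset.sum_mul]
  by_cases h0 : φ (fun l => b (I l)) = 0
  · rw [h0, mul_zero]
  have hpow : ∀ (n : ℕ) (k : ι), R (F ^ n) (b k) = ((lam k ^ n : Kˣ) : K) • b k := by
    intro n
    induction n with
    | zero => intro k; simp
    | succ n ih =>
      intro k
      rw [pow_succ, map_mul, Module.End.mul_apply, hF, map_smul, ih, smul_smul, pow_succ]
      push_cast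
      rw [mul_comm]
  have h2 := hφ (F ^ M) hM (fun l => b (I l))
  have h3 : (fun l => R (F ^ M) (b (I l))) = fun l => ((lam (I l) ^ M : Kˣ) : K) • b (I l) := by
    funext l
    exact hpow M (I l)
  rw [h3, MultilinearMap.map_smul_univ, smul_eq_mul] at h2
  have h4 := mul_right_cancel₀ h0 h2
  have h5 : ∏ l, lam (I l) ^ M = (c ^ M) ^ m := by
    apply Units.ext
    push_cast
    rw [hc, ← map_pow]
    push_cast at h4
    exact h4
  have h6 : (M : K) * ∑ l, a (Additive.ofMul (lam (I l))) =
      (M : K) * ((m : K) * a (Additive.ofMul c)) := by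
    have h7 := congrArg (fun x : Kˣ => a (Additive.ofMul x)) h5
    simp only [ofMul_prod, ofMul_pow, map_sum, map_nsmul, nsmul_eq_mul] at h7
    rw [Finset.mul_sum, h7]
    ring
  have h7 := mul_left_cancel₀ (Nat.cast_ne_zero.2 hM0) h6
  rw [Finset.sum_sub_distrib, h7, Finset.sum_const, Finset.card_univ, Fintype.card_prod,
    Fintype.card_fin, Fintype.card_fin, nsmul_eq_mul]
  push_cast
  ring

/-- The value of the diagonal operator at an eigenvector. -/
theorem dg_eig {ι : Type} [Fintype ι] [DecidableEq ι] (F : Γ) (b : Basis ι K X) (lam : ι → Kˣ)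
    (hF : ∀ k, R F (b k) = (lam k : K) • b k) (t : Kˣ → K) (al : Kˣ) {u : X}
    (hu : R F u = (al : K) • u) : dg b (fun k => t (lam k)) u = t al • u := by
  have h1 : ∀ k, b.repr u k * ((lam k : K) - (al : K)) = 0 := by
    intro k
    have h2 : R F u = ∑ k, (b.repr u k * (lam k : K)) • b k := by
      conv_lhs => rw [← b.sum_repr u]
      rw [map_sum]
      refine Finset.sum_congr rfl fun k _ => ?_
      rw [map_smul, hF, smul_smul]
    have h3 : b.repr (R F u) k = b.repr u k * (lam k : K) := by
      rw [h2, Basis.repr_sum_self]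
    rw [hu, map_smul, Finsupp.smul_apply, smul_eq_mul] at h3
    linear_combination -h3
  conv_lhs => rw [← b.sum_repr u]
  conv_rhs => rw [← b.sum_repr u]
  rw [map_sum, Finset.smul_sum]
  refine Finset.sum_congr rfl fun k _ => ?_
  rw [map_smul, dg_basis]
  rcases mul_eq_zero.1 (h1 k) with h2 | h2
  · rw [h2, zero_smul, zero_smul, smul_zero]
  · have h3 : lam k = al := Units.ext (sub_eq_zero.1 h2)
    rw [h3, smul_comm]

/-- A diagonalizable element of the group with two eigenvectors in `U`, the quotient of whose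
eigenvalues is not a root of unity, gives an element of the Lie algebra that is not a scalar on
`U`. -/
theorem exists_nonscalar {n : ℕ} (F : Γ) (b : Basis (Fin n) K X)
    (hb : ∀ k, ∃ a : K, R F (b k) = a • b k) {u v : X} (hu0 : u ≠ 0) (hv0 : v ≠ 0) {al be : K}
    (hu : R F u = al • u) (hv : R F v = be • v) (hab : ∀ k : ℕ, 0 < k → al ^ k ≠ be ^ k) :
    ∃ Y ∈ lieT R χ, ∃ s t : K, s ≠ t ∧ Y u = s • u ∧ Y v = t • v := by
  classical
  choose lam hlam using hb
  have hne : ∀ (w : X) (a : K), w ≠ 0 → R F w = a • w → a ≠ 0 := by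
    intro w a hw h h0
    rw [h0, zero_smul] at h
    exact Rne F hw h
  have hlam0 : ∀ k, lam k ≠ 0 := fun k => hne _ _ (b.ne_zero k) (hlam k)
  let lam' : Fin n → Kˣ := fun k => Units.mk0 (lam k) (hlam0 k)
  let al' : Kˣ := Units.mk0 al (hne u al hu0 hu)
  let be' : Kˣ := Units.mk0 be (hne v be hv0 hv)
  obtain ⟨a, ha⟩ := exists_add (al' * be'⁻¹) (by
    intro k hk h
    apply hab k hk
    rw [mul_pow, inv_pow, mul_inv_eq_one] at h
    have h1 := congrArg (fun x : Kˣ => (x : K)) h
    simpa [al', be'] using h1)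
  have hχ0 : χ F ≠ 0 := χne (χ := χ) F
  let c : Kˣ := Units.mk0 (χ F) hχ0
  let t : Kˣ → K := fun x => a (Additive.ofMul x) - a (Additive.ofMul c) / 2
  refine ⟨dg b (fun k => t (lam' k)), dg_mem R χ F b lam' hlam c rfl a, t al', t be', ?_,
    dg_eig R F b lam' hlam t al' hu, dg_eig R F b lam' hlam t be' hv⟩
  intro h
  apply ha
  rw [ofMul_mul, ofMul_inv, map_add, map_neg]
  have h1 : a (Additive.ofMul al') - a (Additive.ofMul c) / 2 =
    a (Additive.ofMul be') - a (Additive.ofMul c) / 2 := h
  linear_combination h1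

end Pool.Agent.TH118.CR
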